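import Pool.Agent.T2h66.LV.Defs
import Pool.Agent.T2h66.LL.Main

/-!
# From the definitions in `LL` to the definitions in `LV` (helper66)
-/

set_option autoImplicit false

noncomputable section

open scoped Polynomial WithZero
open IsDedekindDomain WithZero

namespace Pool.Agent.T2h66.LV

/-- change of the definition of `Irr` -/
def cv {G : Type} [Group G] [TopologicalSpace G] (π : LL.Irr G) : Irr G :=
  ⟨π.V, π.ρ, π.irreducible, π.smooth⟩

/-- representations of `GL_2(𝔸)` -/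
def cvA (π : LL.Irr LL.GA) : Irr GA := cv (G := GA) π

/-- representations of `GL_2(K_∞)` -/
def cvI (π : LL.Irr (GL (Fin 2) LL.Ki)) : Irr (G2 Ki) := cv (G := G2 Ki) π

lemma hasComp_of {G H : Type} [Group G] [TopologicalSpace G] [Group H] [TopologicalSpace H]
    (ι : H →* G) (π : LL.Irr G) (σ : LL.Irr H) (h : LL.HasComp ι π σ) :
    HasComp ι (cv π) (cv σ) := by
  have key : (⊤ : Submodule ℂ π.V) ≤ Submodule.span ℂ {y : π.V | ∃ (f : σ.V →ₗ[ℂ] π.V) (x : σ.V),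
      (∀ (h : H) (z : σ.V), f (σ.ρ h z) = π.ρ (ι h) (f z)) ∧ f x = y} := by
    unfold LL.HasComp at h
    rw [← h, iSup_le_iff]
    rintro f _ ⟨x, rfl⟩
    refine Submodule.subset_span ⟨f.toLinearMap, x, fun g z => ?_, rfl⟩
    exact LinearMap.congr_fun (f.isIntertwining' g) z
  exact eq_top_iff.2 key

lemma autForm_of (φ : GA → ℂ) (h : LL.IsAutForm φ) : IsAutForm φ :=
  ⟨h.left_inv, h.smooth, h.adm⟩

lemma nA_eq (x : Ad) : nA x = LL.nA x := by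
  refine Prod.ext ?_ ?_
  · refine Units.ext ?_
    rfl
  · refine Units.ext ?_
    rfl

lemma cuspForm_of (φ : GA → ℂ) (h : LL.IsCuspForm φ) : IsCuspForm φ := by
  refine ⟨autForm_of φ h.toIsAutForm, fun g => ?_⟩
  obtain ⟨U₀, hU₀, hU⟩ := h.cusp g
  refine ⟨U₀, hU₀, fun U hU1 hU2 => ?_⟩
  simp only [nA_eq]
  exact hU U hU1 hU2

lemma subquotient_of (P : (LL.GA → ℂ) → Prop) (Q : (GA → ℂ) → Prop) (hPQ : ∀ φ, P φ → Q φ)
    (π : LL.Irr LL.GA) (h : LL.IsSubquotient P π) : IsSubquotient Q (cvA π) := by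
  obtain ⟨W, hW, f, hf⟩ := h
  obtain ⟨f', hf'⟩ := LinearMap.exists_extend f.toLinearMap
  have key : ∀ (φ : LL.GA → ℂ) (hφ : φ ∈ W.toSubmodule), f' φ = f.toLinearMap ⟨φ, hφ⟩ :=
    fun φ hφ => LinearMap.congr_fun hf' ⟨φ, hφ⟩
  refine ⟨W.toSubmodule, f', fun φ hφ => hPQ φ (hW φ hφ), fun g φ hφ => ?_, fun y => ?_⟩
  · refine ⟨W.apply_mem_toSubmodule g hφ, ?_⟩
    have h1 := key _ (W.apply_mem_toSubmodule g hφ)
    have h2 := key φ hφ
    have h3 := LinearMap.congr_fun (f.isIntertwining' g) ⟨φ, hφ⟩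
    refine h1.trans (Eq.trans h3 ?_)
    exact congrArg (π.ρ g) h2.symm
  · obtain ⟨φ, hφ⟩ := hf y
    exact ⟨φ.1, φ.2, (key φ.1 φ.2).trans hφ⟩

lemma automorphic_of (π : LL.Irr LL.GA) (h : LL.IsAutomorphic π) : IsAutomorphic (cvA π) :=
  subquotient_of _ _ autForm_of π h

lemma cuspidal_of (π : LL.Irr LL.GA) (h : LL.IsCuspidal π) : IsCuspidal (cvA π) :=
  subquotient_of _ _ cuspForm_of π h

lemma compInd_of {F : Type} [Field F] [TopologicalSpace F] [IsTopologicalRing F]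
    (v : Valuation F ℤᵐ⁰) (q : ℕ) (ι : GL (Fin 2) F →* LL.GA) (π : LL.Irr LL.GA)
    (μ₁ μ₂ : Fˣ →* ℂˣ) (h : ∃ σ : LL.Irr (GL (Fin 2) F), LL.HasComp ι π σ ∧
      ∃ j : σ.ρ.IntertwiningMap (LL.Ind v q μ₁ μ₂).toRepresentation, Function.Injective j) :
    CompInd v q ι (cvA π) μ₁ μ₂ := by
  obtain ⟨σ, hσ, j, hj⟩ := h
  refine ⟨cv (G := G2 F) σ, hasComp_of (G := GA) (H := G2 F) ι π σ hσ,
    (LL.Ind v q μ₁ μ₂).toSubmodule.subtype ∘ₗ j.toLinearMap, ?_, fun x => ⟨?_, fun g => ?_⟩⟩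
  · exact (Subtype.val_injective).comp hj
  · exact (j.toLinearMap x).2
  · have h1 := LinearMap.congr_fun (j.isIntertwining' g) x
    exact congrArg Subtype.val h1

lemma isobaric_of (π : LL.Irr LL.GA) (h : LL.IsIsobaric π) : IsIsobaric (cvA π) := by
  rcases h with h | ⟨h, χ₁, χ₂, s₁, s₂, h1, h2, h3, h4, h5, h6, h7⟩
  · exact Or.inl (cuspidal_of π h)
  · refine Or.inr ⟨automorphic_of π h, χ₁, χ₂, s₁, s₂, h1, h2, h3, h4, h5, fun v => ?_, ?_⟩
    · exact compInd_of (F := Kv v) Valued.v (qv v) (atV v) π (chiV χ₂ v) (chiV χ₁ v) (h6 v)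
    · exact compInd_of (F := Ki) Valued.v 2 atI π (chiI χ₂) (chiI χ₁) h7

end Pool.Agent.T2h66.LV
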