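import Mathlib

/-!
# Definitions for `MP_5ae62c_nt`: automorphic representations of `GL_2` over `K = F_2(t)`

(helper66)
-/

set_option autoImplicit false

noncomputable section

open scoped Polynomial WithZero
open IsDedekindDomain

namespace Pool.Agent.T2h66.LV

/-! ### The field `K = F_2(t)`, its places and its adeles -/

/-- `A = F_2[t]` -/
def A : Type := Polynomial (ZMod 2)

instance instA : CommRing A := (inferInstance : CommRing (Polynomial (ZMod 2)))

instance instDA : IsDedekindDomain A := (inferInstance : IsDedekindDomain (Polynomial (ZMod 2)))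

/-- `K = F_2(t)` -/
def K : Type := RatFunc (ZMod 2)

instance instK : Field K := (inferInstance : Field (RatFunc (ZMod 2)))

instance instAK : Algebra A K := (inferInstance : Algebra (Polynomial (ZMod 2)) (RatFunc (ZMod 2)))

instance instFK : IsFractionRing A K :=
  (inferInstance : IsFractionRing (Polynomial (ZMod 2)) (RatFunc (ZMod 2)))

/-- the places of `K` other than `∞` -/
abbrev Pl : Type := HeightOneSpectrum A

instance instDecidableEqPl : DecidableEq Pl := Classical.decEq _

/-- the completion of `K` at a place `v ≠ ∞` -/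
def Kv (v : Pl) : Type := v.adicCompletion K

instance instKv (v : Pl) : Field (Kv v) := (inferInstance : Field (v.adicCompletion K))

instance instVKv (v : Pl) : Valued (Kv v) ℤᵐ⁰ := (inferInstance : Valued (v.adicCompletion K) ℤᵐ⁰)

/-- the completion of `K` at `∞`, the local field `F = F_2((1/t))` -/
def Ki : Type := @RatFunc.CompletionAtInfty (ZMod 2) _ (Classical.decEq _)

instance instKi : Field Ki := @RatFunc.CompletionAtInfty.instField (ZMod 2) _ (Classical.decEq _)

instance instVKi : Valued Ki ℤᵐ⁰ :=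
  letI : DecidableEq (RatFunc (ZMod 2)) := Classical.decEq _
  (inferInstance : Valued (RatFunc.CompletionAtInfty (ZMod 2)) ℤᵐ⁰)

/-- the ring of adeles away from `∞` -/
def Af : Type := FiniteAdeleRing A K

instance instAf : CommRing Af := (inferInstance : CommRing (FiniteAdeleRing A K))

instance instTAf : TopologicalSpace Af := (inferInstance : TopologicalSpace (FiniteAdeleRing A K))

/-- the adele ring of `K` -/
def Ad : Type := Af × Ki

instance instAd : CommRing Ad := (inferInstance : CommRing (Af × Ki))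

instance instTAd : TopologicalSpace Ad := (inferInstance : TopologicalSpace (Af × Ki))

/-- the embedding of `K` in the adeles away from `∞` -/
def iAf : K →+* Af := algebraMap K (FiniteAdeleRing A K)

/-- the embedding of `K` in its completion at `∞` -/
def iKi : K →+* Ki :=
  letI : DecidableEq (RatFunc (ZMod 2)) := Classical.decEq _
  algebraMap (RatFunc (ZMod 2)) (RatFunc.CompletionAtInfty (ZMod 2))

/-- the diagonal embedding of `K` in the adeles -/
def iAd : K →+* Ad := iAf.prod iKi

/-- the component at `v` of an adele -/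
def ev (v : Pl) : Af →+* Kv v where
  toFun a := (show FiniteAdeleRing A K from a) v
  map_one' := rfl
  map_mul' _ _ := rfl
  map_zero' := rfl
  map_add' _ _ := rfl

/-- the adele which is `x` at `v` and `a` at all other places -/
def upd (v : Pl) (x : Kv v) (a : Af) : Af :=
  ⟨Function.update a.1 v x, by
    have h := a.2
    rw [Filter.eventually_cofinite] at h ⊢
    refine (h.union (Set.finite_singleton v)).subset fun w hw => ?_
    by_cases hwv : w = v
    · exact Or.inr hwv
    · left
      have he : Function.update a.1 v x w = a.1 w := Function.update_of_ne hwv x a.1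
      intro hc
      exact hw ((congrArg (· ∈ HeightOneSpectrum.adicCompletionIntegers K w) he).mpr hc)⟩

lemma upd_same (v : Pl) (x : Kv v) (a : Af) : ev v (upd v x a) = x :=
  Function.update_self v x a.1

lemma upd_ne (v : Pl) (x : Kv v) (a : Af) {w : Pl} (h : w ≠ v) : ev w (upd v x a) = ev w a :=
  Function.update_of_ne h x a.1

lemma ext_ev {a b : Af} (h : ∀ w, ev w a = ev w b) : a = b := Subtype.ext (funext h)

/-- the embedding of `K_v` in the adeles, with component `1` outside `v` -/
def updHom (v : Pl) : Kv v →* Af where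
  toFun x := upd v x 1
  map_one' := by
    refine ext_ev fun w => ?_
    by_cases hw : w = v
    · subst hw; rw [upd_same, map_one]
    · rw [upd_ne _ _ _ hw]
  map_mul' x y := by
    refine ext_ev fun w => ?_
    rw [map_mul]
    by_cases hw : w = v
    · subst hw; simp only [upd_same]
    · simp only [upd_ne _ _ _ hw, map_one, mul_one]

/-- the matrix over `Af` which is `M` at `v` and the identity matrix at all other places -/
def locMat (v : Pl) : Matrix (Fin 2) (Fin 2) (Kv v) →* Matrix (Fin 2) (Fin 2) Af where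
  toFun M := Matrix.of fun i j => upd v (M i j) ((1 : Matrix (Fin 2) (Fin 2) Af) i j)
  map_one' := by
    ext i j
    refine ext_ev fun w => ?_
    by_cases hw : w = v
    · subst hw
      rw [Matrix.of_apply, upd_same]
      fin_cases i <;> fin_cases j <;> simp
    · rw [Matrix.of_apply, upd_ne _ _ _ hw]
  map_mul' M N := by
    ext i j
    refine ext_ev fun w => ?_
    rw [Matrix.mul_apply, map_sum]
    by_cases hw : w = v
    · subst hw
      simp only [Matrix.of_apply, upd_same, map_mul, Matrix.mul_apply]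
    · simp only [Matrix.of_apply, upd_ne _ _ _ hw, map_mul]
      have h1 := congrArg (fun P : Matrix (Fin 2) (Fin 2) Af => ev w (P i j))
        (one_mul (1 : Matrix (Fin 2) (Fin 2) Af))
      simp only [Matrix.mul_apply, map_sum, map_mul] at h1
      exact h1.symm

/-! ### The groups `GL_2` -/

/-- `GL_2(R)` -/
def G2 (R : Type) [CommRing R] : Type := GL (Fin 2) R

instance instG2 (R : Type) [CommRing R] : Group (G2 R) := (inferInstance : Group (GL (Fin 2) R))

instance instTG2 (R : Type) [CommRing R] [TopologicalSpace R] : TopologicalSpace (G2 R) :=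
  (inferInstance : TopologicalSpace (GL (Fin 2) R))

/-- the entries of a matrix -/
def ent {R : Type} [CommRing R] (g : G2 R) (i j : Fin 2) : R := (show GL (Fin 2) R from g) i j

/-- the map `GL_2(R) → GL_2(S)` of a ring homomorphism -/
def mapG {R S : Type} [CommRing R] [CommRing S] (f : R →+* S) : G2 R →* G2 S :=
  Matrix.GeneralLinearGroup.map f

/-- the group `GL_2` of the adele ring `Af × Ki` -/
def GA : Type := G2 Af × G2 Ki

instance instGA : Group GA := (inferInstance : Group (G2 Af × G2 Ki))

instance instTGA : TopologicalSpace GA := (inferInstance : TopologicalSpace (G2 Af × G2 Ki))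

/-- the diagonal embedding of `GL_2(K)` -/
def diagK : G2 K →* GA := (mapG iAf).prod (mapG iKi)

/-- the embedding of `GL_2(K_v)` at the place `v` -/
def atV (v : Pl) : G2 (Kv v) →* GA := MonoidHom.prod (N := G2 Af) (Units.map (locMat v)) 1

/-- the embedding of `GL_2(K_∞)` at the place `∞` -/
def atI : G2 Ki →* GA := MonoidHom.inr (G2 Af) (G2 Ki)

/-- the upper triangular matrix `(a b; 0 d)` -/
def bor {R : Type} [CommRing R] (a : Rˣ) (b : R) (d : Rˣ) : G2 R where
  val := !![(a : R), b; 0, (d : R)]
  inv := !![((a⁻¹ : Rˣ) : R), -((a⁻¹ : Rˣ) : R) * b * ((d⁻¹ : Rˣ) : R); 0, ((d⁻¹ : Rˣ) : R)]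
  val_inv := by
    ext i j; fin_cases i <;> fin_cases j <;> simp [Matrix.mul_apply, Fin.sum_univ_two]
    rw [mul_assoc, ← mul_assoc (a : R) _ _, Units.mul_inv, one_mul]; ring
  inv_val := by
    ext i j; fin_cases i <;> fin_cases j <;>
      simp [Matrix.mul_apply, Fin.sum_univ_two, mul_assoc]

/-- the adelic matrix `(1 x; 0 1)` -/
def nA (x : Ad) : GA := (bor 1 x.1 1, bor 1 x.2 1)

/-! ### Irreducible smooth representations -/

/-- `Irr(G)`: the irreducible smooth complex representations of a topological group `G`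
(smooth: every vector is fixed by an open subgroup) -/
structure Irr (G : Type) [Group G] [TopologicalSpace G] where
  V : Type
  [acg : AddCommGroup V]
  [mod : Module ℂ V]
  ρ : Representation ℂ G V
  irreducible : ρ.IsIrreducible
  smooth : ∀ x : V, ∃ U : Subgroup G, IsOpen (U : Set G) ∧ ∀ u ∈ U, ρ u x = x

attribute [instance] Irr.acg Irr.mod

/-- isomorphic representations -/
def Iso {G : Type} [Group G] [TopologicalSpace G] (σ τ : Irr G) : Prop :=
  Nonempty (σ.ρ.Equiv τ.ρ)

/-- Let `π = ⊗ π_y` be a representation of `GL_2` of the adeles and let `ι` be the embedding of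
`GL_2(K_y)`. The local component `π_y` is the irreducible representation `σ` of `GL_2(K_y)` such
that the restriction of `π` to `GL_2(K_y)` is a sum of copies of `σ`: the images of the
intertwining maps from `σ` span `π`. -/
def HasComp {G H : Type} [Group G] [TopologicalSpace G] [Group H] [TopologicalSpace H]
    (ι : H →* G) (π : Irr G) (σ : Irr H) : Prop :=
  Submodule.span ℂ {y : π.V | ∃ (f : σ.V →ₗ[ℂ] π.V) (x : σ.V),
    (∀ (h : H) (z : σ.V), f (σ.ρ h z) = π.ρ (ι h) (f z)) ∧ f x = y} = ⊤

/-- the integral matrices with integral inverse, `GL_2(O)` -/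
def IsInt {F : Type} [Field F] (v : Valuation F ℤᵐ⁰) (g : G2 F) : Prop :=
  ∀ i j, v (ent g i j) ≤ 1 ∧ v (ent g⁻¹ i j) ≤ 1

/-- `π` is unramified at a place: there is a nonzero vector fixed by `GL_2` of the ring of
integers -/
def Unram {F : Type} [Field F] (v : Valuation F ℤᵐ⁰) (ι : G2 F →* GA) (π : Irr GA) : Prop :=
  ∃ x : π.V, x ≠ 0 ∧ ∀ u : G2 F, IsInt v u → π.ρ (ι u) x = x

/-! ### Automorphic forms and automorphic representations -/

/-- right translation of a function by `g` -/
def rt {G : Type} [Group G] (g : G) (φ : G → ℂ) : G → ℂ := fun x => φ (x * g)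

/-- the translates of `φ` by the elements of `H` generate an admissible representation of `H`:
for every open subgroup `U` of `H` its subspace of vectors fixed by `U` has finite dimension -/
def AdmissibleSpan {G H : Type} [Group G] [Group H] [TopologicalSpace H] (ι : H →* G)
    (φ : G → ℂ) : Prop :=
  ∀ U : Subgroup H, IsOpen (U : Set H) →
    ∃ W : Submodule ℂ (G → ℂ), FiniteDimensional ℂ W ∧
      ∀ ψ ∈ Submodule.span ℂ (Set.range fun h : H => rt (ι h) φ),
        (∀ u ∈ U, rt (ι u) ψ = ψ) → ψ ∈ W

/-- Automorphic forms on `GL_2` over `K` (Borel and Jacquet, Automorphic forms and automorphic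
representations, 5.7 and 5.8): functions on `GL_2(K) \ GL_2(𝔸)` which are fixed by an open subgroup
under right translations and generate an admissible representation of `GL_2(K_y)`, for one place
`y` (equivalently, for all of them). -/
def IsAutForm (φ : GA → ℂ) : Prop :=
  (∀ (γ : G2 K) (g : GA), φ (diagK γ * g) = φ g) ∧
  (∃ U : Subgroup GA, IsOpen (U : Set GA) ∧ ∀ u ∈ U, ∀ g, φ (g * u) = φ g) ∧
  (AdmissibleSpan atI φ ∨ ∃ v : Pl, AdmissibleSpan (atV v) φ)

/-- the subgroup `K + U` of the adeles -/
def KU (U : AddSubgroup Ad) : AddSubgroup Ad := iAd.toAddMonoidHom.range ⊔ U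

/-- Cusp forms: automorphic forms with constant term zero, that is, the integral of
`x ↦ φ((1 x; 0 1) g)` over the compact group `𝔸 / K` is zero for all `g`. The function
is invariant under all sufficiently small open subgroups `U` of `𝔸`, and the integral is the mean
value over the finite group `𝔸 / (K + U)`. -/
def IsCuspForm (φ : GA → ℂ) : Prop :=
  IsAutForm φ ∧ ∀ g : GA, ∃ U₀ : AddSubgroup Ad, IsOpen (U₀ : Set Ad) ∧
    ∀ U : AddSubgroup Ad, IsOpen (U : Set Ad) → U ≤ U₀ →
      Finite (Ad ⧸ KU U) ∧
      (∀ x : Ad, ∀ u ∈ U, φ (nA (x + u) * g) = φ (nA x * g)) ∧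
      ∑ᶠ q : Ad ⧸ KU U, φ (nA q.out * g) = 0

/-- `π` is isomorphic to a quotient of the representation by right translations on a space `W` of
functions with the property `P`; the quotient map is the restriction to `W` of a linear map `f` -/
def IsSubquotient (P : (GA → ℂ) → Prop) (π : Irr GA) : Prop :=
  ∃ (W : Submodule ℂ (GA → ℂ)) (f : (GA → ℂ) →ₗ[ℂ] π.V), (∀ φ ∈ W, P φ) ∧
    (∀ g : GA, ∀ φ ∈ W, rt g φ ∈ W ∧ f (rt g φ) = π.ρ g (f φ)) ∧ ∀ y : π.V, ∃ φ ∈ W, f φ = y

/-- automorphic representations: the irreducible subquotients of the space of automorphic forms -/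
def IsAutomorphic (π : Irr GA) : Prop := IsSubquotient IsAutForm π

/-- cuspidal automorphic representations: the irreducible subquotients of the space of cusp
forms -/
def IsCuspidal (π : Irr GA) : Prop := IsSubquotient IsCuspForm π

/-! ### Isobaric representations of `GL_2` -/

/-- the normalised absolute value of a local field with `q` elements in the residue field:
`q ^ n` for elements of value `exp n` -/
def nrm {F : Type} [Field F] (v : Valuation F ℤᵐ⁰) (q : ℕ) (x : Fˣ) : ℝ :=
  (q : ℝ) ^ (WithZero.log (v x))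

/-- `f` is in the normalised induced representation `I(μ₁, μ₂)` of `GL_2(F)`, the space of the
locally constant functions `f` on `GL_2(F)` such that
`f((a b; 0 d) g) = μ₁(a) μ₂(d) |a/d|^(1/2) f(g)`. -/
def InInd {F : Type} [Field F] [TopologicalSpace F] (v : Valuation F ℤᵐ⁰) (q : ℕ)
    (μ₁ μ₂ : Fˣ →* ℂˣ) (f : G2 F → ℂ) : Prop :=
  (∃ U : Subgroup (G2 F), IsOpen (U : Set (G2 F)) ∧ ∀ u ∈ U, ∀ g, f (g * u) = f g) ∧
  ∀ (a d : Fˣ) (b : F) (g : G2 F),
    f (bor a b d * g) = μ₁ a * μ₂ d * ((nrm v q (a / d) ^ (1 / 2 : ℝ) : ℝ) : ℂ) * f g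

/-- `π` has a component at a place which is a subrepresentation of `I(μ₁, μ₂)` -/
def CompInd {F : Type} [Field F] [TopologicalSpace F] (v : Valuation F ℤᵐ⁰) (q : ℕ)
    (ι : G2 F →* GA) (π : Irr GA) (μ₁ μ₂ : Fˣ →* ℂˣ) : Prop :=
  ∃ σ : Irr (G2 F), HasComp ι π σ ∧ ∃ j : σ.V →ₗ[ℂ] (G2 F → ℂ), Function.Injective j ∧
    ∀ x : σ.V, InInd v q μ₁ μ₂ (j x) ∧ ∀ g : G2 F, j (σ.ρ g x) = rt g (j x)

/-- the group of ideles of `K` -/
def Id : Type := Afˣ × Kiˣ

instance instId : Group Id := (inferInstance : Group (Afˣ × Kiˣ))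

instance instTId : TopologicalSpace Id := (inferInstance : TopologicalSpace (Afˣ × Kiˣ))

/-- the diagonal embedding of `Kˣ` in the ideles -/
def dK : Kˣ →* Id := (Units.map (iAf : K →* Af)).prod (Units.map (iKi : K →* Ki))

/-- Hecke quasi-characters: continuous homomorphisms from the group of ideles of `K` to `ℂˣ`
which are trivial on `Kˣ` -/
def IsHecke (χ : Id →* ℂˣ) : Prop := Continuous χ ∧ ∀ x : Kˣ, χ (dK x) = 1

/-- the component at `v` of a Hecke quasi-character -/
def chiV (χ : Id →* ℂˣ) (v : Pl) : (Kv v)ˣ →* ℂˣ :=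
  χ.comp (MonoidHom.prod (N := Afˣ) (Units.map (updHom v)) 1)

/-- the component at `∞` of a Hecke quasi-character -/
def chiI (χ : Id →* ℂˣ) : Kiˣ →* ℂˣ := χ.comp (MonoidHom.inr Afˣ Kiˣ)

/-- the number of elements of the residue field of `v` -/
def qv (v : Pl) : ℕ := Nat.card (A ⧸ v.asIdeal)

/-- `|χ| = |·|^s` -/
def HasExponent (χ : Id →* ℂˣ) (s : ℝ) : Prop :=
  (∀ (v : Pl) (x : (Kv v)ˣ), ‖((chiV χ v x : ℂˣ) : ℂ)‖ = nrm Valued.v (qv v) x ^ s) ∧
    ∀ x : Kiˣ, ‖((chiI χ x : ℂˣ) : ℂ)‖ = nrm Valued.v 2 x ^ s

/-- The isobaric automorphic representations of `GL_2` over `K`: the cuspidal ones, and the isobaric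
sums `χ₁ ⊞ χ₂` of two Hecke quasi-characters, `|χ_i| = |·|^(s_i)`, `s₂ ≤ s₁`: these are the
automorphic representations whose component at every place `y` is the Langlands quotient of the
induced representation `I(χ₁, χ₂)` of `GL_2(K_y)`, in other words the irreducible
subrepresentation of `I(χ₂, χ₁)`. -/
def IsIsobaric (π : Irr GA) : Prop :=
  IsCuspidal π ∨ (IsAutomorphic π ∧ ∃ (χ₁ χ₂ : Id →* ℂˣ) (s₁ s₂ : ℝ),
    IsHecke χ₁ ∧ IsHecke χ₂ ∧ HasExponent χ₁ s₁ ∧ HasExponent χ₂ s₂ ∧ s₂ ≤ s₁ ∧
    (∀ v : Pl, CompInd Valued.v (qv v) (atV v) π (chiV χ₂ v) (chiV χ₁ v)) ∧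
    CompInd Valued.v 2 atI π (chiI χ₂) (chiI χ₁))

/-- `π'` is a lifting of `π` for the standard representation of `GL_2(ℂ)`, for which the unramified
lifting is the identity: `π'_y = π_y` at all places `y` at which `π` is unramified -/
def IsLift (π π' : Irr GA) : Prop :=
  (∀ v : Pl, Unram Valued.v (atV v) π →
    ∀ σ : Irr (G2 (Kv v)), HasComp (atV v) π σ → HasComp (atV v) π' σ) ∧
  (Unram Valued.v atI π →
    ∀ σ : Irr (G2 Ki), HasComp atI π σ → HasComp atI π' σ)

end Pool.Agent.T2h66.LV
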