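import Pool.Agent.T2h66.LV.Bridge

/-!
# The main theorem from the tasks, for the definitions in `LV` (helper66)
-/

set_option autoImplicit false

noncomputable section

open scoped Polynomial WithZero
open IsDedekindDomain WithZero

namespace Pool.Agent.T2h66.LV

/-- the trivial representation of `GL_2(𝔸)` -/
def trA : Irr GA := cvA (LL.triv LL.GA)

/-- the trivial representation of `GL_2(K_∞)` -/
def trI : Irr (G2 Ki) := cvI (LL.triv (GL (Fin 2) LL.Ki))

lemma hasComp_tr {H : Type} [Group H] [TopologicalSpace H] (ι : H →* GA) (σ : Irr H)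
    (h : ∀ (g : H) (x : σ.V), σ.ρ g x = x) : HasComp ι trA σ := by
  have := LL.irr_nontrivial σ.irreducible
  obtain ⟨x, hx⟩ := exists_ne (0 : σ.V)
  obtain ⟨μ, hμ⟩ : ∃ μ : σ.V →ₗ[ℂ] ℂ, μ x ≠ 0 := by
    by_contra hc
    push Not at hc
    exact hx ((Module.forall_dual_apply_eq_zero_iff ℂ x).1 hc)
  have key : ∀ y : ℂ, y ∈ Submodule.span ℂ {y : ℂ | ∃ (f : σ.V →ₗ[ℂ] ℂ) (x : σ.V),
      (∀ (h : H) (z : σ.V), f (σ.ρ h z) = f z) ∧ f x = y} := by
    intro y
    refine Submodule.subset_span ⟨μ, (y / μ x) • x, fun g z => ?_, ?_⟩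
    · rw [h]
    · rw [map_smul, smul_eq_mul, div_mul_cancel₀ _ hμ]
  exact (Submodule.eq_top_iff' (p := Submodule.span ℂ {y : ℂ | ∃ (f : σ.V →ₗ[ℂ] ℂ) (x : σ.V),
      (∀ (h : H) (z : σ.V), f (σ.ρ h z) = f z) ∧ f x = y})).2 key

/-- a component of a representation on which `ι H` acts trivially is trivial -/
lemma triv_of_comp {H : Type} [Group H] [TopologicalSpace H] (ι : H →* GA) (π : Irr GA)
    (hπ : ∀ h, π.ρ (ι h) = 1) (σ : Irr H) (hc : HasComp ι π σ) (g : H) (x : σ.V) :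
    σ.ρ g x = x := by
  have hn := LL.irr_nontrivial π.irreducible
  obtain ⟨f, hf, hf0⟩ : ∃ f : σ.V →ₗ[ℂ] π.V,
      (∀ (h : H) (z : σ.V), f (σ.ρ h z) = π.ρ (ι h) (f z)) ∧ f ≠ 0 := by
    by_contra hcon
    push Not at hcon
    unfold HasComp at hc
    have h1 : Submodule.span ℂ {y : π.V | ∃ (f : σ.V →ₗ[ℂ] π.V) (x : σ.V),
        (∀ (h : H) (z : σ.V), f (σ.ρ h z) = π.ρ (ι h) (f z)) ∧ f x = y} = ⊥ := by
      rw [Submodule.span_eq_bot]
      rintro y ⟨f, x, hf, rfl⟩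
      rw [hcon f hf]
      rfl
    rw [h1] at hc
    obtain ⟨z, hz⟩ := exists_ne (0 : π.V)
    have h2 : z ∈ (⊤ : Submodule ℂ π.V) := trivial
    rw [← hc] at h2
    exact hz ((Submodule.mem_bot ℂ).1 h2)
  have hfe : ∀ (g : H) (x : σ.V), f (σ.ρ g x) = f x := by
    intro g x
    rw [hf, hπ]
    rfl
  have hk : LinearMap.ker f = ⊥ := by
    rcases LL.irr_stable σ.irreducible (LinearMap.ker f) (fun g y hy => by
      rw [LinearMap.mem_ker] at hy ⊢
      rw [hfe, hy]) with h | h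
    · exact h
    · exact absurd (LinearMap.ker_eq_top.1 h) hf0
  have h2 : σ.ρ g x - x ∈ LinearMap.ker f := by
    rw [LinearMap.mem_ker, map_sub, hfe, sub_self]
  rw [hk, Submodule.mem_bot, sub_eq_zero] at h2
  exact h2

theorem main : LL.S_P1 → LL.S_P2 → LL.S_CO → LL.S_LB → LL.S_LE → LL.S_TV → LL.S_IF →
    ¬ ∃ l : Irr (G2 Ki) → Irr (G2 Ki), (∀ σ τ, Iso σ τ → Iso (l σ) (l τ)) ∧
      ∀ π π' : Irr GA, IsAutomorphic π → IsIsobaric π' → IsLift π π' →
        ∀ σ τ : Irr (G2 Ki), HasComp atI π σ → HasComp atI π' τ → Iso τ (l σ) := by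
  rintro ⟨π, hπa, hπf, x, hx0, hx, hxg⟩ ⟨π', hπ', s, hs, hs'⟩ hCO hLB hLE hTV hIF ⟨l, -, hl⟩
  have hirr := hLB LL.Ki Valued.v LL.pI hIF.1 hIF.2.1 _ _ x hx hx0 hxg
  set σ₀ := LL.resI π hirr with hσ₀
  set σ := cvI σ₀ with hσ
  have hnofix : ∀ y : σ.V, (∀ u : G2 Ki, IsInt Valued.v u → σ.ρ u y = y) → y = 0 :=
    fun y hy => hLE LL.Ki Valued.v LL.pI hIF.1 hIF.2.1 σ₀.V σ₀.ρ x hx hxg y hy
  have hlift : IsLift (cvA π) trA := by
    constructor
    · intro v _ τ hτ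
      refine hasComp_tr _ τ fun g y => ?_
      refine triv_of_comp (atV v) (cvA π) (fun h => ?_) τ hτ g y
      exact hπf _
    · rintro ⟨y, hy0, hy⟩
      exact absurd (hnofix y hy) hy0
  have h1 : Iso trI (l σ) :=
    hl (cvA π) trA (automorphic_of π hπa) (isobaric_of _ hTV) hlift σ trI
      (hasComp_of (G := GA) (H := G2 Ki) atI π σ₀ (LL.hasComp_resI π hirr))
      (hasComp_tr _ _ fun _ _ => rfl)
  have hcomp : HasComp atI (cvA π') σ :=
    hasComp_of (G := GA) (H := G2 Ki) atI π' σ₀ (hCO π' s hs hs' σ₀ x hx hx0 hxg)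
  have h2 : Iso σ (l σ) :=
    hl (cvA π') (cvA π') (automorphic_of π' (LL.cuspidal_automorphic hπ'))
      (Or.inl (cuspidal_of π' hπ')) ⟨fun _ _ _ h => h, fun _ _ h => h⟩ σ σ hcomp hcomp
  obtain ⟨e⟩ := h1
  obtain ⟨e'⟩ := h2
  have h3 : e'.symm (e (1 : ℂ)) = 0 := by
    refine hnofix _ fun u _ => ?_
    have h4 : (l σ).ρ u (e (1 : ℂ)) = e (1 : ℂ) := by
      have := Representation.IntertwiningMap.isIntertwining _ _ e.toIntertwiningMap u (1 : ℂ)
      exact this.symm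
    have h5 := Representation.IntertwiningMap.isIntertwining _ _ e'.symm.toIntertwiningMap u
      (e (1 : ℂ))
    refine h5.symm.trans ?_
    rw [h4]
    rfl
  have h6 : e (1 : ℂ) = 0 := by
    have := congrArg e' h3
    rw [Representation.Equiv.apply_symm_apply] at this
    rw [this]
    exact map_zero e'.toLinearMap
  have h7 : (1 : ℂ) = 0 := by
    have := congrArg e.symm h6
    exact (Representation.Equiv.symm_apply_apply e (1 : ℂ)).symm.trans
      (this.trans (map_zero e.symm.toLinearMap))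
  exact one_ne_zero h7

end Pool.Agent.T2h66.LV
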